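import Pool.Agent.Q31.GLV.Stm

/-!
Project GLV, unit FX: elements which fix a large subspace pointwise.
-/

set_option autoImplicit false

namespace Pool.Agent.Q278.GLV

open Module Cardinal Submodule Pool.Agent.Q31.GLV

/-- The projection onto a complement of a subspace which is fixed pointwise. -/
theorem proj_fix {F V : Type} [Field F] [AddCommGroup V] [Module F V] (A C : Submodule F V)
    (hC : IsCompl C A) (u : V ≃ₗ[F] V) (hu : ∀ a ∈ A, u a = a) (v : V) :
    projectionOnto C A hC (u (projectionOnto C A hC v : V)) = projectionOnto C A hC (u v) := by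
  have h1 : v - (projectionOnto C A hC v : V) ∈ A := by
    rw [← projectionOnto_apply_eq_zero_iff hC, map_sub, projectionOnto_apply_left, sub_self]
  have h2 := hu _ h1
  rw [map_sub] at h2
  have h3 : u v - u (projectionOnto C A hC v : V) ∈ A := by
    rw [h2]
    exact h1
  rw [← projectionOnto_apply_eq_zero_iff hC, map_sub, sub_eq_zero] at h3
  exact h3.symm

theorem t_FX (hSW : S_SW) : S_FX := by
  intro F V _ _ _ hV S hS A hA t ht
  obtain ⟨C, hAC⟩ := A.exists_isCompl
  have hC : IsCompl C A := hAC.symm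
  have ht' : ∀ a ∈ A, t.symm a = a := by
    intro a ha
    rw [LinearEquiv.symm_apply_eq]
    exact (ht a ha).symm
  have hq1 : (projectionOnto C A hC ∘ₗ (t : V →ₗ[F] V) ∘ₗ C.subtype) ∘ₗ
      (projectionOnto C A hC ∘ₗ (t.symm : V →ₗ[F] V) ∘ₗ C.subtype) = LinearMap.id := by
    ext c
    have h1 := proj_fix A C hC t ht (t.symm (c : V))
    rw [LinearEquiv.apply_symm_apply, projectionOnto_apply_left] at h1
    simpa using congrArg (fun x : C => (x : V)) h1
  have hq2 : (projectionOnto C A hC ∘ₗ (t.symm : V →ₗ[F] V) ∘ₗ C.subtype) ∘ₗ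
      (projectionOnto C A hC ∘ₗ (t : V →ₗ[F] V) ∘ₗ C.subtype) = LinearMap.id := by
    ext c
    have h1 := proj_fix A C hC t.symm ht' (t (c : V))
    rw [LinearEquiv.symm_apply_apply, projectionOnto_apply_left] at h1
    simpa using congrArg (fun x : C => (x : V)) h1
  let q : C ≃ₗ[F] C := LinearEquiv.ofLinear _ _ hq1 hq2
  have hq : ∀ c : C, q c = projectionOnto C A hC (t (c : V)) := fun c => rfl
  let e : (C × A) ≃ₗ[F] V := prodEquivOfIsCompl C A hC
  let s : V ≃ₗ[F] V := e.symm ≪≫ₗ (LinearEquiv.prodCongr q (LinearEquiv.refl F A)) ≪≫ₗ e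
  have hs : s ∈ S := by
    apply hSW F V C A e.symm hV ?_ hA.1 S hS q s
    · intro v
      show e.symm (e ((LinearEquiv.prodCongr q (LinearEquiv.refl F A)) (e.symm v))) = _
      rw [LinearEquiv.symm_apply_apply]
      rfl
    · rw [← (quotientEquivOfIsCompl A C hAC).rank_eq]
      exact hA.2
  -- the difference of `t` and `s`
  have hd : ∀ v, t v - s v ∈ A := by
    intro v
    obtain ⟨⟨c, a⟩, rfl⟩ := e.surjective v
    have h1 : s (e (c, a)) = (q c : V) + a := by
      show e ((LinearEquiv.prodCongr q (LinearEquiv.refl F A)) (e.symm (e (c, a)))) = _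
      rw [LinearEquiv.symm_apply_apply]
      rfl
    have h2 : t (e (c, a)) = t (c : V) + a := by
      have h3 : e (c, a) = (c : V) + a := rfl
      rw [h3, map_add, ht _ a.2]
    rw [h1, h2, add_sub_add_right_eq_sub, hq]
    rw [← projectionOnto_apply_eq_zero_iff hC, map_sub, projectionOnto_apply_left, sub_self]
  have hsA : ∀ a ∈ A, s a = a := by
    intro a ha
    have h1 : e (0, ⟨a, ha⟩) = a := by
      have h3 : e (0, ⟨a, ha⟩) = ((0 : C) : V) + a := rfl
      rw [h3]
      simp
    have h2 : s (e (0, ⟨a, ha⟩)) = (q 0 : V) + a := by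
      show e ((LinearEquiv.prodCongr q (LinearEquiv.refl F A)) (e.symm (e (0, ⟨a, ha⟩)))) = _
      rw [LinearEquiv.symm_apply_apply]
      rfl
    rw [h1] at h2
    rw [h2]
    simp
  have hu : t * s⁻¹ ∈ S := by
    apply hS A hA
    constructor
    · intro a ha
      have h1 : s⁻¹ a = a := by
        show s.symm a = a
        rw [LinearEquiv.symm_apply_eq]
        exact (hsA a ha).symm
      show t (s⁻¹ a) = a
      rw [h1, ht a ha]
    · intro v
      have h1 := hd (s.symm v)
      rw [LinearEquiv.apply_symm_apply] at h1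
      exact h1
  have h2 : t = (t * s⁻¹) * s := by group
  rw [h2]
  exact S.mul_mem hu hs

end Pool.Agent.Q278.GLV
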