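import Pool.Agent.Q31.GLV.Stm

/-!
Project GLV, unit NEA: near subspaces are in one orbit.
-/

set_option autoImplicit false

namespace Pool.Agent.Q278.GLV

open Module Cardinal Submodule Pool.Agent.Q31.GLV

/-- A linear automorphism of `W` which maps `A` onto `B`. -/
theorem exists_equiv_map {F W : Type} [Field F] [AddCommGroup W] [Module F W]
    (A B : Submodule F W) (h1 : Module.rank F A = Module.rank F B)
    (h2 : Module.rank F (W ⧸ A) = Module.rank F (W ⧸ B)) :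
    ∃ g : W ≃ₗ[F] W, (∀ a ∈ A, g a ∈ B) ∧ ∀ b ∈ B, ∃ a ∈ A, g a = b := by
  obtain ⟨C, hC⟩ := A.exists_isCompl
  obtain ⟨C', hC'⟩ := B.exists_isCompl
  obtain ⟨α⟩ : Nonempty (A ≃ₗ[F] B) := nonempty_linearEquiv_of_rank_eq h1
  have h3 : Module.rank F C = Module.rank F C' := by
    rw [← (quotientEquivOfIsCompl A C hC).rank_eq, ← (quotientEquivOfIsCompl B C' hC').rank_eq]
    exact h2
  obtain ⟨γ⟩ : Nonempty (C ≃ₗ[F] C') := nonempty_linearEquiv_of_rank_eq h3
  let g : W ≃ₗ[F] W := (prodEquivOfIsCompl A C hC).symm ≪≫ₗ (LinearEquiv.prodCongr α γ) ≪≫ₗ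
    prodEquivOfIsCompl B C' hC'
  have hg : ∀ a : A, g (a : W) = (α a : W) := by
    intro a
    simp only [g, LinearEquiv.trans_apply, prodEquivOfIsCompl_symm_apply_left,
      LinearEquiv.prodCongr_apply, coe_prodEquivOfIsCompl', map_zero, ZeroMemClass.coe_zero,
      add_zero]
  refine ⟨g, ?_, ?_⟩
  · intro a ha
    rw [hg ⟨a, ha⟩]
    exact (α ⟨a, ha⟩).2
  · intro b hb
    refine ⟨(α.symm ⟨b, hb⟩ : W), (α.symm ⟨b, hb⟩).2, ?_⟩
    rw [hg, LinearEquiv.apply_symm_apply]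

theorem t_NEA : S_NEA := by
  intro F V _ _ _ S hS A B hA hB hN
  obtain ⟨W, hW, hAW, hBW, hA2, hB2⟩ := hN
  have h1 : Module.rank F (A.submoduleOf W) = Module.rank F (B.submoduleOf W) := by
    rw [(submoduleOfEquivOfLe hAW).rank_eq, (submoduleOfEquivOfLe hBW).rank_eq, hA.1, hB.1]
  obtain ⟨g, hg1, hg2⟩ := exists_equiv_map (A.submoduleOf W) (B.submoduleOf W) h1
    (hA2.trans hB2.symm)
  obtain ⟨s, hs, hsg⟩ := hS W hW g
  refine ⟨s, hs, ?_⟩
  ext b
  constructor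
  · rintro ⟨a, ha, rfl⟩
    have h3 := hg1 ⟨a, hAW ha⟩ (by simpa [Submodule.submoduleOf] using ha)
    have h4 := hsg ⟨a, hAW ha⟩
    have h5 : (g ⟨a, hAW ha⟩ : V) ∈ B := by simpa [Submodule.submoduleOf] using h3
    rw [← h4] at h5
    exact h5
  · intro hb
    obtain ⟨a, ha, hab⟩ := hg2 ⟨b, hBW hb⟩ (by simpa [Submodule.submoduleOf] using hb)
    refine ⟨(a : V), by simpa [Submodule.submoduleOf] using ha, ?_⟩
    have h4 := hsg a
    rw [hab] at h4
    exact h4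

end Pool.Agent.Q278.GLV
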